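import Pool.Agent.H480.M5
import Pool.Agent.H480.K8

/-!
From bounded local rank of the summatory function of a Dirichlet series to a bound for the number of the zeros of `ζ`.
-/

open Complex MeasureTheory Filter Topology Set

set_option linter.unusedSectionVars false

namespace Pool.Agent.H480.ML

open Pool.Agent.H480.G Pool.Agent.H480.K
open H313.GK

noncomputable section

/-- continuation with at most `r` poles from bounded local rank of the summatory function -/
theorem cont_of_rank {f : ℕ → ℂ} {b : ℝ} (hb : 0 ≤ b) (hf : ∀ n : ℕ, n ≠ 0 → ‖f n‖ ≤ (n : ℝ) ^ b)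
    {A A' : ℝ} (hA : 1 < A) (hA' : 1 < A') {r : ℕ} {δ : ℝ}
    (H : ∀ β : ℝ, δ < β → ∀ᶠ X : ℝ in atTop, Near (SM f) A A' r β X) :
    ∃ (ρ : Fin r → ℂ) (g : ℂ → ℂ) (c₀ : ℝ), (∀ j, δ < (ρ j).re) ∧ (∀ s : ℂ, δ < s.re → DifferentiableAt ℂ g s) ∧
      ∀ s : ℂ, c₀ < s.re → g s = (∏ j, (s - ρ j)) * (LSeries f s / s) := by
  have hlA := Real.log_pos hA
  have hlA' := Real.log_pos hA'
  obtain ⟨c₀, hc1, hc2⟩ : ∃ c₀ : ℝ, b + 1 < c₀ ∧ ((δ : ℝ) : EReal) < (c₀ : EReal) := by
    refine ⟨max δ (b + 1) + 1, by have := le_max_right δ (b + 1); linarith, ?_⟩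
    have := le_max_left δ (b + 1)
    exact_mod_cast (by linarith : δ < max δ (b + 1) + 1)
  obtain ⟨d, hd1, hd2, hd3, hd4⟩ := seqE hc2
  set h₁ : ℝ := min (Real.log A) (Real.log A') / (r + 2) with hh₁
  have hh0 : 0 < h₁ := by
    rw [hh₁]
    exact div_pos (lt_min hlA hlA') (by positivity)
  have hrh : ∀ h : ℝ, h ≤ h₁ → (r + 2) * h ≤ min (Real.log A) (Real.log A') := by
    intro h hh
    have : (r + 2) * h ≤ (r + 2) * h₁ := mul_le_mul_of_nonneg_left hh (by positivity)
    refine this.trans (le_of_eq ?_)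
    rw [hh₁]; field_simp
  have hSb : ∀ u : ℝ, 0 ≤ u → ‖SM f (Real.exp u)‖ ≤ 1 * Real.exp ((b + 1) * u) := fun u _ => SM_bd hb hf u
  have hfm : Measurable fun u : ℝ => SM f (Real.exp u) := (SM_meas f).comp Real.measurable_exp
  have hΦ : ∀ s : ℂ, c₀ < s.re → Lap (fun u => SM f (Real.exp u)) s = LSeries f s / s := fun s hs =>
    trans_F hb hf (s := s) (by linarith)
  have hΦd : ∀ s : ℂ, c₀ < s.re → DifferentiableAt ℂ (Lap (fun u => SM f (Real.exp u))) s := by
    intro s hs
    refine lap_diff hfm (β' := c₀) (fun σ hσ => ?_) hs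
    exact f_int hfm (fun u hu => SM_zero f hu) zero_le_one hSb (by linarith)
  obtain ⟨ρ, g, hρ, hg, hform⟩ := finite_poles hd1 hd2 hΦd (r := r) (fun n => by
    obtain ⟨β, hβ1, hβ2⟩ := EReal.lt_iff_exists_real_btwn.1 (hd3 n)
    refine ⟨h₁, hh0, fun h hh hh' => ?_⟩
    have hL := near_log_ev (SM_meas f) hSb hA.le hA'.le (H β (by exact_mod_cast hβ1))
    obtain ⟨q, hq, -, e1, e2, -⟩ := transform hfm (fun u hu => SM_zero f hu) zero_le_one hSb hh
      ((hrh h hh').trans (min_le_left _ _)) ((hrh h hh').trans (min_le_right _ _))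
      (show β < d n by exact_mod_cast hβ2) hL
    exact ⟨q, hq, _, e1, fun s hs => e2 s (by linarith)⟩)
  refine ⟨ρ, g, c₀, fun j => ?_, fun s hs => hg s (hd4 _ (by exact_mod_cast hs)), fun s hs => ?_⟩
  · obtain ⟨n, hn⟩ := hρ j
    have h1 := hd3 n
    have h2 : δ < d n := by exact_mod_cast h1
    linarith
  · rw [hform s hs, hΦ s hs]

/-- the order of a product of linear factors -/
theorem order_prod {r : ℕ} (ρ : Fin r → ℂ) (z : ℂ) :
    analyticOrderAt (fun s => ∏ j, (s - ρ j)) z = ((Finset.univ.filter fun j => ρ j = z).card : ℕ) := by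
  have han : AnalyticAt ℂ (fun s => ∏ j, (s - ρ j)) z := by fun_prop
  rw [han.analyticOrderAt_eq_natCast]
  refine ⟨fun s => ∏ j ∈ Finset.univ.filter (fun j => ¬ ρ j = z), (s - ρ j), by fun_prop, ?_, Eventually.of_forall fun s => ?_⟩
  · refine Finset.prod_ne_zero_iff.2 fun j hj => ?_
    exact sub_ne_zero.2 fun h => (Finset.mem_filter.1 hj).2 h.symm
  · rw [← Finset.prod_filter_mul_prod_filter_not Finset.univ (fun j => ρ j = z), smul_eq_mul]
    congr 1
    rw [Finset.prod_congr rfl (g := fun _ => s - z) (fun j hj => by rw [(Finset.mem_filter.1 hj).2]), Finset.prod_const]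

theorem card_sum {r : ℕ} (ρ : Fin r → ℂ) (T : Finset ℂ) : ∑ z ∈ T, (Finset.univ.filter fun j => ρ j = z).card ≤ r := by
  classical
  have h1 : ∀ z ∈ T, (Finset.univ.filter fun j => ρ j = z).card = ∑ j : Fin r, if ρ j = z then 1 else 0 := fun z _ => by
    rw [Finset.card_filter]
  rw [Finset.sum_congr rfl h1, Finset.sum_comm]
  calc ∑ j : Fin r, ∑ z ∈ T, (if ρ j = z then 1 else 0) ≤ ∑ j : Fin r, 1 := by
        refine Finset.sum_le_sum fun j _ => ?_
        rw [Finset.sum_ite_eq]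
        split_ifs <;> simp
    _ = r := by simp

/-- the number of zeros of `Z` is at most `r` -/
theorem count_of_cont {r : ℕ} {ρ : Fin r → ℂ} {g F Z P Q : ℂ → ℂ} {δ c₀ : ℝ}
    (hg : ∀ s : ℂ, δ < s.re → DifferentiableAt ℂ g s)
    (hform : ∀ s : ℂ, c₀ < s.re → g s = (∏ j, (s - ρ j)) * (F s / s))
    (hZ : Differentiable ℂ Z) (hP : Differentiable ℂ P) (hQ : Differentiable ℂ Q)
    (hrel : ∀ s : ℂ, c₀ < s.re → F s * (Z s * P s) = Q s) (T : Finset ℂ)
    (hT : ∀ z ∈ T, δ < z.re ∧ Q z ≠ 0) :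
    ∑ z ∈ T, analyticOrderNatAt Z z ≤ r := by
  have hid : ∀ s : ℂ, δ < s.re → g s * (s * P s) * Z s = (∏ j, (s - ρ j)) * Q s := by
    intro s hs
    refine half_id (δ := δ) (c₀ := max c₀ 0) (F := fun s => g s * (s * P s) * Z s) (G := fun s => (∏ j, (s - ρ j)) * Q s)
      (fun s hs => ((hg s hs).mul (differentiableAt_id.mul (hP s))).mul (hZ s)) (fun s _ => by fun_prop)
      (fun s hs => ?_) hs
    have h1 : c₀ < s.re := (le_max_left _ _).trans_lt hs
    have h2 : s ≠ 0 := by
      intro h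
      have := (le_max_right c₀ 0).trans_lt hs
      rw [h] at this
      simp at this
    show g s * (s * P s) * Z s = (∏ j, (s - ρ j)) * Q s
    rw [hform s h1, ← hrel s h1]
    field_simp
  refine (Finset.sum_le_sum fun z hz => ?_).trans (card_sum ρ T)
  obtain ⟨h1, h2⟩ := hT z hz
  have hopen : {s : ℂ | δ < s.re} ∈ 𝓝 z := (isOpen_lt continuous_const Complex.continuous_re).mem_nhds h1
  have hga : AnalyticAt ℂ g z := by
    rw [Complex.analyticAt_iff_eventually_differentiableAt]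
    filter_upwards [hopen] with s hs using hg s hs
  have hPa : AnalyticAt ℂ P z := hP.analyticAt z
  have hQa : AnalyticAt ℂ Q z := hQ.analyticAt z
  have hZa : AnalyticAt ℂ Z z := hZ.analyticAt z
  have hpa : AnalyticAt ℂ (fun s => ∏ j, (s - ρ j)) z := by fun_prop
  have e0 : AnalyticAt ℂ (fun s => g s * (s * P s)) z := hga.mul (analyticAt_id.mul hPa)
  have e1 : analyticOrderAt (fun s => g s * (s * P s) * Z s) z = analyticOrderAt (fun s => (∏ j, (s - ρ j)) * Q s) z := by
    refine analyticOrderAt_congr ?_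
    filter_upwards [hopen] with s hs using hid s hs
  have e2 : analyticOrderAt (fun s => g s * (s * P s) * Z s) z =
      analyticOrderAt (fun s => g s * (s * P s)) z + analyticOrderAt Z z := analyticOrderAt_mul e0 hZa
  have e3 : analyticOrderAt (fun s => (∏ j, (s - ρ j)) * Q s) z =
      analyticOrderAt (fun s => ∏ j, (s - ρ j)) z + analyticOrderAt Q z := analyticOrderAt_mul hpa hQa
  have e4 : analyticOrderAt Q z = 0 := hQa.analyticOrderAt_eq_zero.2 h2
  rw [e2, e3, e4, add_zero, order_prod] at e1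
  have e5 : analyticOrderAt Z z ≤ ((Finset.univ.filter fun j => ρ j = z).card : ℕ) := by
    rw [← e1]
    exact le_add_self
  exact ENat.toNat_le_of_le_coe e5

end

end Pool.Agent.H480.ML
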