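import Pool.Agent.H480.ML.A
import Pool.Agent.H480.ML.C

/-!
The Dirichlet series of `μ` and of the Liouville function; factorisation of `(s - 1) ζ(s)` in a half plane with finitely many zeros.
-/

open Complex MeasureTheory Filter Topology Set
open Pool.Agent.H295R2

set_option linter.unusedSectionVars false

namespace Pool.Agent.H480.ML

noncomputable section

/-- the Möbius function -/
def fM (n : ℕ) : ℂ := ((ArithmeticFunction.moebius n : ℤ) : ℂ)

/-- the Liouville function -/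
def fL (n : ℕ) : ℂ := ((ArithmeticFunction.liouville n : ℤ) : ℂ)

theorem fM_le (n : ℕ) (_ : n ≠ 0) : ‖fM n‖ ≤ (n : ℝ) ^ (0 : ℝ) := by
  rw [Real.rpow_zero]
  unfold fM
  rw [Complex.norm_intCast]
  exact_mod_cast ArithmeticFunction.abs_moebius_le_one

theorem fL_le (n : ℕ) (hn : n ≠ 0) : ‖fL n‖ ≤ (n : ℝ) ^ (0 : ℝ) := by
  rw [Real.rpow_zero]
  unfold fL
  rw [ArithmeticFunction.liouville_apply hn]
  simp

theorem serM {s : ℂ} (hs : 1 < s.re) : LSeries fM s * Zs s = s - 1 := by
  have h1 := ArithmeticFunction.LSeries_zeta_mul_Lseries_moebius hs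
  have hs1 : s ≠ 1 := by
    rintro rfl
    simp at hs
  have h2 := ArithmeticFunction.LSeries_zeta_eq_riemannZeta hs
  rw [h2] at h1
  have h3 : LSeries fM s = LSeries (fun n => ((ArithmeticFunction.moebius n : ℤ) : ℂ)) s := rfl
  rw [← Zs_eq hs1, h3]
  linear_combination (s - 1) * h1

/-- `n ↦ n^(-s)` -/
def hz (s : ℂ) (hs : 1 < s.re) : ℕ →*₀ ℂ where
  toFun n := (n : ℂ) ^ (-s)
  map_zero' := by
    rw [Nat.cast_zero, Complex.zero_cpow]
    intro h
    rw [neg_eq_zero] at h
    rw [h] at hs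
    simp at hs
    linarith
  map_one' := by simp
  map_mul' m n := by rw [Nat.cast_mul, Complex.natCast_mul_natCast_cpow]

/-- `n ↦ λ(n) n^(-s)` -/
def hl (s : ℂ) (hs : 1 < s.re) : ℕ →*₀ ℂ where
  toFun n := fL n * (n : ℂ) ^ (-s)
  map_zero' := by simp [fL]
  map_one' := by simp [fL, ArithmeticFunction.liouville_apply_one]
  map_mul' m n := by
    rw [Nat.cast_mul, Complex.natCast_mul_natCast_cpow]
    simp only [fL]
    rw [ArithmeticFunction.liouville_apply_mul]
    push_cast
    ring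

theorem norm_ncpow (n : ℕ) {s : ℂ} (hs : 1 < s.re) : ‖(n : ℂ) ^ (-s)‖ ≤ 1 / (n : ℝ) ^ s.re := by
  rcases Nat.eq_zero_or_pos n with rfl | hn
  · have h0 : -s ≠ 0 := by
      intro h
      rw [neg_eq_zero] at h
      rw [h] at hs
      simp at hs
      linarith
    rw [Nat.cast_zero, Complex.zero_cpow h0, norm_zero]
    positivity
  · rw [Complex.norm_natCast_cpow_of_pos hn, Complex.neg_re, Real.rpow_neg (by positivity), one_div]

theorem hz_sum {s : ℂ} (hs : 1 < s.re) : Summable (fun n => ‖hz s hs n‖) :=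
  Summable.of_nonneg_of_le (fun _ => norm_nonneg _) (fun n => norm_ncpow n hs) (Real.summable_one_div_nat_rpow.2 hs)

theorem fL_norm (n : ℕ) : ‖fL n‖ ≤ 1 := by
  rcases Nat.eq_zero_or_pos n with rfl | hn
  · simp [fL]
  · simpa using fL_le n hn.ne'

theorem hl_sum {s : ℂ} (hs : 1 < s.re) : Summable (fun n => ‖hl s hs n‖) := by
  refine Summable.of_nonneg_of_le (fun _ => norm_nonneg _) (fun n => ?_) (Real.summable_one_div_nat_rpow.2 hs)
  show ‖fL n * (n : ℂ) ^ (-s)‖ ≤ _
  rw [norm_mul]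
  calc ‖fL n‖ * ‖(n : ℂ) ^ (-s)‖ ≤ 1 * (1 / (n : ℝ) ^ s.re) :=
        mul_le_mul (fL_norm n) (norm_ncpow n hs) (norm_nonneg _) zero_le_one
    _ = _ := one_mul _

theorem serL_zeta {s : ℂ} (hs : 1 < s.re) : LSeries fL s * riemannZeta s = riemannZeta (2 * s) := by
  have hs2 : 1 < (2 * s).re := by
    simp
    linarith
  have e1 : ∀ {w : ℂ} (hw : 1 < w.re), ∑' n, hz w hw n = riemannZeta w := by
    intro w hw
    rw [zeta_eq_tsum_one_div_nat_cpow hw]
    refine tsum_congr fun n => ?_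
    show (n : ℂ) ^ (-w) = _
    rw [Complex.cpow_neg, one_div]
  have e2 : ∑' n, hl s hs n = LSeries fL s := by
    unfold LSeries
    refine tsum_congr fun n => ?_
    show fL n * (n : ℂ) ^ (-s) = _
    rcases Nat.eq_zero_or_pos n with rfl | hn
    · simp [LSeries.term_zero, fL]
    · rw [LSeries.term_of_ne_zero hn.ne', Complex.cpow_neg, div_eq_mul_inv]
  have p1 := EulerProduct.eulerProduct_completely_multiplicative_hasProd (hz_sum hs)
  have p2 := EulerProduct.eulerProduct_completely_multiplicative_hasProd (hl_sum hs)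
  have p3 := EulerProduct.eulerProduct_completely_multiplicative_hasProd (hz_sum hs2)
  rw [e1] at p1 p3
  rw [e2] at p2
  have p4 := p2.mul p1
  have key : (fun p : Nat.Primes => (1 - hl s hs p)⁻¹ * (1 - hz s hs p)⁻¹) = fun p : Nat.Primes => (1 - hz (2 * s) hs2 p)⁻¹ := by
    funext p
    show (1 - fL p * (p : ℂ) ^ (-s))⁻¹ * (1 - (p : ℂ) ^ (-s))⁻¹ = (1 - (p : ℂ) ^ (-(2 * s)))⁻¹
    have h1 : fL p = -1 := by
      unfold fL
      rw [ArithmeticFunction.liouville_apply p.2.ne_zero, ArithmeticFunction.cardFactors_apply_prime p.2]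
      simp
    have h2 : (p : ℂ) ^ (-(2 * s)) = (p : ℂ) ^ (-s) * (p : ℂ) ^ (-s) := by
      rw [← Complex.cpow_add _ _ (by exact_mod_cast p.2.ne_zero)]
      congr 1
      ring
    rw [h1, h2, ← mul_inv]
    congr 1
    ring
  rw [key] at p4
  exact p4.unique p3

theorem serL {s : ℂ} (hs : 1 < s.re) : LSeries fL s * (Zs s * (2 * s - 1)) = (s - 1) * Zs (2 * s) := by
  have hs1 : s ≠ 1 := by
    rintro rfl
    simp at hs
  have hs2 : 2 * s ≠ 1 := by
    intro h
    have := congrArg Complex.re h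
    simp at this
    linarith
  rw [← Zs_eq hs1, ← Zs_eq hs2, ← serL_zeta hs]
  ring

end

end Pool.Agent.H480.ML
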