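import Pool.Agent.H480.ML.B
import Pool.Agent.H480.K7

/-!
From finitely many zeros to bounded local rank.
-/

open Complex MeasureTheory Filter Topology Set
open Pool.Agent.H295R2

set_option linter.unusedSectionVars false
set_option linter.unusedVariables false

namespace Pool.Agent.H480.ML

open Pool.Agent.H480.G Pool.Agent.H480.K
open H313.GK

noncomputable section

/-- enumeration with multiplicity -/
theorem enum (m : ℂ → ℕ) (T : Finset ℂ) : ∃ (n : ℕ) (ρ : Fin n → ℂ), n = ∑ z ∈ T, m z ∧ (∀ k, ρ k ∈ T) ∧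
    ∀ s : ℂ, ∏ k, (s - ρ k) = ∏ z ∈ T, (s - z) ^ m z := by
  classical
  induction T using Finset.induction_on with
  | empty => exact ⟨0, Fin.elim0, by simp, fun k => k.elim0, fun s => by simp⟩
  | insert z T hz ih =>
    obtain ⟨n, ρ, h1, h2, h3⟩ := ih
    refine ⟨n + m z, Fin.append ρ fun _ => z, ?_, fun k => ?_, fun s => ?_⟩
    · rw [Finset.sum_insert hz, h1, add_comm]
    · refine Fin.addCases (fun i => ?_) (fun i => ?_) k
      · rw [Fin.append_left]; exact Finset.mem_insert_of_mem (h2 i)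
      · rw [Fin.append_right]; exact Finset.mem_insert_self _ _
    · rw [Fin.prod_univ_add]
      simp only [Fin.append_left, Fin.append_right, Finset.prod_const, Finset.card_univ, Fintype.card_fin]
      rw [h3, Finset.prod_insert hz, mul_comm]

/-- factorisation -/
theorem fac {U : Set ℂ} (hU : IsOpen U) {f : ℂ → ℂ} (hf : DifferentiableOn ℂ f U) (T : Finset ℂ)
    (hT : ∀ z ∈ T, z ∈ U ∧ analyticOrderAt f z ≠ ⊤) :
    ∃ h : ℂ → ℂ, DifferentiableOn ℂ h U ∧ (∀ s ∈ U, f s = (∏ z ∈ T, (s - z) ^ analyticOrderNatAt f z) * h s) ∧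
      ∀ z ∈ T, h z ≠ 0 := by
  classical
  have hloc : ∀ z ∈ T, ∃ g : ℂ → ℂ, AnalyticAt ℂ g z ∧ g z ≠ 0 ∧
      ∀ᶠ w in 𝓝 z, f w = (w - z) ^ analyticOrderNatAt f z * g w := by
    intro z hz
    have han : AnalyticAt ℂ f z := hf.analyticAt (hU.mem_nhds (hT z hz).1)
    have h1 : analyticOrderAt f z = (analyticOrderNatAt f z : ℕ∞) := (ENat.coe_toNat (hT z hz).2).symm
    obtain ⟨g, g1, g2, g3⟩ := han.analyticOrderAt_eq_natCast.1 h1
    exact ⟨g, g1, g2, g3.mono fun w hw => by rw [hw, smul_eq_mul]⟩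
  choose! G hG1 hG2 hG3 using hloc
  set D : ℂ → ℂ → ℂ := fun z s => ∏ w ∈ T.erase z, (s - w) ^ analyticOrderNatAt f w with hD
  have hDne : ∀ z ∈ T, D z z ≠ 0 := fun z hz => Finset.prod_ne_zero_iff.2 fun w hw =>
    pow_ne_zero _ (sub_ne_zero.2 (Finset.ne_of_mem_erase hw).symm)
  have hDan : ∀ z s, AnalyticAt ℂ (D z) s := fun z s => by simp only [hD]; fun_prop
  set P : ℂ → ℂ := fun s => ∏ z ∈ T, (s - z) ^ analyticOrderNatAt f z with hP
  have hPD : ∀ z ∈ T, ∀ s, P s = (s - z) ^ analyticOrderNatAt f z * D z s := fun z hz s =>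
    (Finset.mul_prod_erase T (fun z => (s - z) ^ analyticOrderNatAt f z) hz).symm
  have hPne : ∀ s, s ∉ T → P s ≠ 0 := fun s hs => Finset.prod_ne_zero_iff.2 fun w hw =>
    pow_ne_zero _ (sub_ne_zero.2 fun h => hs (h ▸ hw))
  set h : ℂ → ℂ := fun s => if s ∈ T then G s s / D s s else f s / P s with hh
  have hev : ∀ z ∈ T, h =ᶠ[𝓝 z] fun s => G z s / D z s := by
    intro z hz
    have e1 : ∀ᶠ s in 𝓝 z, s ∉ T.erase z := by
      have : IsClosed ((T.erase z : Finset ℂ) : Set ℂ) := (T.erase z).finite_toSet.isClosed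
      have h1 := this.isOpen_compl.mem_nhds (show z ∈ ((T.erase z : Finset ℂ) : Set ℂ)ᶜ by simp)
      filter_upwards [h1] with s hs
      exact fun h => hs (Finset.mem_coe.2 h)
    have e2 : ∀ᶠ s in 𝓝 z, D z s ≠ 0 := (hDan z z).continuousAt.eventually_ne (hDne z hz)
    filter_upwards [e1, e2, hG3 z hz] with s h1 h2 h3
    simp only [hh]
    by_cases hs : s = z
    · subst hs
      rw [if_pos hz]
    · have hsT : s ∉ T := fun h => h1 (Finset.mem_erase.2 ⟨hs, h⟩)
      rw [if_neg hsT, h3, hPD z hz]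
      have h4 : (s - z) ^ analyticOrderNatAt f z ≠ 0 := pow_ne_zero _ (sub_ne_zero.2 hs)
      field_simp
  refine ⟨h, fun s hs => DifferentiableAt.differentiableWithinAt ?_, fun s hs => ?_, fun z hz => ?_⟩
  · by_cases hsT : s ∈ T
    · exact ((hG1 s hsT).differentiableAt.div (hDan s s).differentiableAt (hDne s hsT)).congr_of_eventuallyEq (hev s hsT)
    · have e1 : h =ᶠ[𝓝 s] fun w => f w / P w := by
        have : IsClosed ((T : Finset ℂ) : Set ℂ) := T.finite_toSet.isClosed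
        filter_upwards [this.isOpen_compl.mem_nhds (show s ∈ ((T : Finset ℂ) : Set ℂ)ᶜ by simpa using hsT)] with w hw
        simp only [hh]
        rw [if_neg (by simpa using hw)]
      have hPd : DifferentiableAt ℂ P s := by simp only [hP]; fun_prop
      exact ((hf.differentiableAt (hU.mem_nhds hs)).div hPd (hPne s hsT)).congr_of_eventuallyEq e1
  · show f s = P s * h s
    by_cases hsT : s ∈ T
    · have e1 := hG3 s hsT
      have e2 := e1.self_of_nhds
      have e3 := (hev s hsT).self_of_nhds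
      rw [e3, hPD s hsT, e2]
      have := hDne s hsT
      field_simp
    · simp only [hh]
      rw [if_neg hsT, mul_div_cancel₀ _ (hPne s hsT)]
  · rw [(hev z hz).self_of_nhds]
    exact div_ne_zero (hG2 z hz) (hDne z hz)

theorem Zs_order_ne_top (z : ℂ) : analyticOrderAt Zs z ≠ ⊤ := by
  intro h
  have h1 : ∀ᶠ w in 𝓝 z, Zs w = 0 := analyticOrderAt_eq_top.1 h
  have han : AnalyticOnNhd ℂ Zs univ := fun s _ => Zs_differentiable.analyticAt s
  have h2 : EqOn Zs 0 univ := han.eqOn_zero_of_preconnected_of_eventuallyEq_zero isPreconnected_univ (mem_univ z) h1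
  exact Zs_ne_zero_of_one_le (s := 1) (by simp) (h2 (mem_univ 1))

theorem order_pos {z : ℂ} (h : Zs z = 0) : 1 ≤ analyticOrderNatAt Zs z := by
  have h1 : analyticOrderAt Zs z ≠ 0 := (Zs_differentiable.analyticAt z).analyticOrderAt_ne_zero.2 h
  have h2 := Zs_order_ne_top z
  rw [Nat.one_le_iff_ne_zero]
  intro h3
  rcases ENat.toNat_eq_zero.1 h3 with h | h
  · exact h1 h
  · exact h2 h

/-- **bounded local rank from finitely many zeros** -/
theorem rank_of_zeros {f : ℕ → ℂ} (hf : ∀ n : ℕ, n ≠ 0 → ‖f n‖ ≤ (n : ℝ) ^ (0 : ℝ)) {δ : ℝ} (h0 : 1 / 2 ≤ δ) {E : ℂ → ℂ}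
    (hE : ∀ s : ℂ, δ < s.re → DifferentiableAt ℂ E s)
    (hEb : ∀ σ : ℝ, δ < σ → ∃ K : ℝ, 0 ≤ K ∧ ∀ s : ℂ, σ ≤ s.re → ‖E s‖ ≤ K)
    (hser : ∀ s : ℂ, 1 < s.re → LSeries f s * Zs s = (s - 1) * E s) {r : ℕ}
    (hcount : ∀ T : Finset ℂ, (∀ z ∈ T, Zs z = 0 ∧ δ < z.re) → ∑ z ∈ T, analyticOrderNatAt Zs z ≤ r)
    {A A' : ℝ} (hA : 1 < A) (hA' : 1 < A') {β : ℝ} (hβ : δ < β) :
    ∀ᶠ X : ℝ in atTop, Near (SM f) A A' r β X := by
  classical
  have hfin : {z : ℂ | Zs z = 0 ∧ δ < z.re}.Finite := by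
    by_contra hinf
    obtain ⟨T, hT, hcard⟩ := Set.Infinite.exists_subset_card_eq hinf (r + 1)
    have h1 := hcount T fun z hz => hT hz
    have h2 : T.card ≤ ∑ z ∈ T, analyticOrderNatAt Zs z := by
      rw [Finset.card_eq_sum_ones]
      exact Finset.sum_le_sum fun z hz => order_pos (hT hz).1
    omega
  set T : Finset ℂ := hfin.toFinset with hT
  have hTm : ∀ z, z ∈ T ↔ Zs z = 0 ∧ δ < z.re := fun z => by rw [hT, Set.Finite.mem_toFinset]; rfl
  have hUo : IsOpen {s : ℂ | δ < s.re} := isOpen_lt continuous_const Complex.continuous_re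
  obtain ⟨h, hh1, hh2, hh3⟩ := fac hUo (Zs_differentiable.differentiableOn) T
    (fun z hz => ⟨((hTm z).1 hz).2, Zs_order_ne_top z⟩)
  obtain ⟨n, ρ, hn, hρT, hρ⟩ := enum (fun z => analyticOrderNatAt Zs z) T
  have hnr : n ≤ r := by
    rw [hn]
    exact hcount T fun z hz => (hTm z).1 hz
  have hhne : ∀ s : ℂ, δ < s.re → h s ≠ 0 := by
    intro s hs h4
    by_cases hsT : s ∈ T
    · exact hh3 s hsT h4
    · apply hsT
      rw [hTm]
      refine ⟨?_, hs⟩
      rw [hh2 s hs, h4, mul_zero]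
  have hs0 : ∀ s : ℂ, δ < s.re → s ≠ 0 := by
    intro s hs h4
    rw [h4] at hs
    simp at hs
    linarith
  set g : ℂ → ℂ := fun s => (s - 1) * E s / (s * h s) with hg
  have hgd : DifferentiableOn ℂ g {s | δ < s.re} := by
    intro s hs
    have h4 : DifferentiableAt ℂ h s := hh1.differentiableAt (hUo.mem_nhds hs)
    exact (((differentiableAt_id.sub_const 1).mul (hE s hs)).div (differentiableAt_id.mul h4)
      (mul_ne_zero (hs0 s hs) (hhne s hs))).differentiableWithinAt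
  have hgZ : ∀ s : ℂ, δ < s.re → g s / ∏ k, (s - ρ k) = E s * fz s / s := by
    intro s hs
    simp only [hg]
    rw [hρ, fz]
    have h5 := hh2 s hs
    rw [h5]
    have h6 := hhne s hs
    have h7 := hs0 s hs
    by_cases h8 : (∏ z ∈ T, (s - z) ^ analyticOrderNatAt Zs z) = 0
    · rw [h8]; simp
    · field_simp
  obtain ⟨T₀, hT₀⟩ : ∃ T₀ : ℝ, ∀ z ∈ T, |z.im| < T₀ := by
    refine ⟨∑ z ∈ T, |z.im| + 1, fun z hz => ?_⟩
    have h1 : |z.im| ≤ ∑ z ∈ T, |z.im| := Finset.single_le_sum (f := fun z : ℂ => |z.im|) (fun _ _ => abs_nonneg _) hz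
    linarith
  have hfree : ∀ s : ℂ, δ < s.re → T₀ ≤ |s.im| → Zs s ≠ 0 := by
    intro s hs ht h4
    exact absurd (hT₀ s ((hTm s).2 ⟨h4, hs⟩)) (not_lt.2 ht)
  have key := near_up (b := 0) le_rfl hf (δ := δ) (by linarith) ρ (fun k => ((hTm _).1 (hρT k)).2) hgd (c₀ := δ + 2)
    (fun s hs => by
      have h1 : δ < s.re := by linarith
      have h2 : 1 < s.re := by linarith
      rw [hgZ s h1]
      have h3 := hser s h2
      have h4 : Zs s ≠ 0 := Zs_ne_zero_of_one_le h2.le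
      have h5 : LSeries f s = (s - 1) * E s / Zs s := by
        rw [← h3]; field_simp
      rw [h5, fz]
      ring)
    (fun σ c hσ hc => by
      obtain ⟨K, hK0, hK⟩ := hEb σ hσ
      obtain ⟨C, T', hC, hfz⟩ := fz_far (ε := 1 / 4) (by linarith) hfree hσ (by norm_num)
      refine ⟨K * C * 2, max T' 1, by positivity, fun s h1 h2 h3 => ?_⟩
      have ht1 : 1 ≤ |s.im| := (le_max_right _ _).trans h3
      have e1 := hfz s h1 ((le_max_left _ _).trans h3)
      have e2 := hK s h1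
      rw [hgZ s (by linarith), norm_div, norm_mul]
      have e3 : |s.im| ≤ ‖s‖ := Complex.abs_im_le_norm s
      have e4 : (1 + |s.im|) / 2 ≤ ‖s‖ := by linarith
      have e5 : 0 < 1 + |s.im| := by linarith
      have e6 : 0 < ‖s‖ := by linarith
      rw [div_le_iff₀ e6]
      have e7 : (1 + |s.im|) ^ (-(3 / 4) : ℝ) * (1 + |s.im|) = (1 + |s.im|) ^ (1 / 4 : ℝ) := by
        rw [← Real.rpow_add_one e5.ne']
        norm_num
      calc ‖E s‖ * ‖fz s‖ ≤ K * (C * (1 + |s.im|) ^ (1 / 4 : ℝ)) := mul_le_mul e2 e1 (norm_nonneg _) hK0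
        _ = K * C * 2 * (1 + |s.im|) ^ (-(3 / 4) : ℝ) * ((1 + |s.im|) / 2) := by rw [← e7]; ring
        _ ≤ _ := mul_le_mul_of_nonneg_left e4 (by positivity))
    hA hA' (η := β - δ) (by linarith)
  filter_upwards [key] with X hX
  rw [show δ + (β - δ) = β by ring] at hX
  exact Near_mono hnr hX

end

end Pool.Agent.H480.ML
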