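import Pool.Graph.R_seed8.H370R2.Count
import Pool.Graph.R_seed8.H370R2.DirGood

/-!
There are zeros of `ζ` with real part at least `1/2` at arbitrarily large heights.
-/

open Complex Filter Topology Set

namespace Pool.Agent.H480.ML

noncomputable section

theorem zeros_high : ∃ T₁ : ℝ, ∀ T : ℝ, T₁ ≤ T → ∃ z : ℂ, riemannZeta z = 0 ∧ 1 / 2 ≤ z.re ∧ z.re < 1 ∧ T < z.im := by
  obtain ⟨C, T0, hC, hT0, h⟩ := H370.nn_asymp H370.good_zeta
  obtain ⟨T2, hT2⟩ := (tendsto_atTop.mp Real.tendsto_log_atTop (20 * C)).exists_forall_of_atTop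
  refine ⟨max T0 T2, fun T hT => ?_⟩
  have hTT0 : T0 ≤ T := (le_max_left _ _).trans hT
  have hl := hT2 T ((le_max_right _ _).trans hT)
  have hTpos : 0 < T := by linarith
  have h1 := h T hTT0 T (2 * T) le_rfl (by linarith) (by linarith) le_rfl
  have h2 := (abs_le.mp h1).1
  have hne : (H370.zset riemannZeta T (2 * T)).Nonempty := by
    by_contra hemp
    rw [Set.not_nonempty_iff_eq_empty] at hemp
    have h3 : H370.NN riemannZeta T (2 * T) = 0 := by
      unfold H370.NN
      rw [hemp, finsum_mem_empty]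
    rw [h3] at h2
    have hpi3 := Real.pi_gt_three
    have hpi4 := Real.pi_lt_four
    have h4 : 2 * C * T < T * Real.log T / (2 * Real.pi) := by
      rw [lt_div_iff₀ (by positivity)]
      have h5 : 2 * C * T * (2 * Real.pi) ≤ 2 * C * T * 8 := mul_le_mul_of_nonneg_left (by linarith) (by positivity)
      have h6 : T * (20 * C) ≤ T * Real.log T := mul_le_mul_of_nonneg_left hl hTpos.le
      have h7 : 0 < C * T := mul_pos hC hTpos
      nlinarith
    have h8 : 0 < C * T := mul_pos hC hTpos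
    simp only [Nat.cast_zero] at h2
    linarith
  obtain ⟨z, hz0, hz1, hz2, hz3, hz4⟩ := hne
  have him : 1 ≤ z.im := by linarith
  rcases le_or_gt (1 / 2) z.re with h5 | h5
  · exact ⟨z, hz4, h5, hz1, hz2⟩
  · have h6 := H370.good_zeta.symm z hz0 hz1 him
    have him' : (1 - (starRingEnd ℂ) z).im = z.im := by simp
    have hre' : (1 - (starRingEnd ℂ) z).re = 1 - z.re := by simp
    have h7 : AnalyticAt ℂ riemannZeta z := H370.good_zeta.an z (by linarith)
    have h8 : AnalyticAt ℂ riemannZeta (1 - (starRingEnd ℂ) z) := H370.good_zeta.an _ (by rw [him']; linarith)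
    have h9 : analyticOrderAt riemannZeta (1 - (starRingEnd ℂ) z) ≠ 0 := by
      rw [h6]
      exact h7.analyticOrderAt_ne_zero.2 hz4
    refine ⟨1 - (starRingEnd ℂ) z, h8.analyticOrderAt_ne_zero.1 h9, ?_, ?_, ?_⟩
    · rw [hre']; linarith
    · rw [hre']; linarith
    · rw [him']; exact hz2

/-- finite sets of any number of zeros with real part at least `1/2` -/
theorem many_zeros (n : ℕ) : ∃ T : Finset ℂ, T.card = n ∧ ∀ z ∈ T, riemannZeta z = 0 ∧ 1 / 2 ≤ z.re ∧ z.re < 1 ∧ z ≠ 1 := by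
  classical
  obtain ⟨T₁, h⟩ := zeros_high
  have hinf : {z : ℂ | riemannZeta z = 0 ∧ 1 / 2 ≤ z.re ∧ z.re < 1 ∧ z ≠ 1}.Infinite := by
    intro hfin
    obtain ⟨z, h1, h2, h3, h4⟩ := h (max T₁ (∑ z ∈ hfin.toFinset, |z.im|)) (le_max_left _ _)
    have hz : z ∈ hfin.toFinset := by
      rw [Set.Finite.mem_toFinset]
      exact ⟨h1, h2, h3, fun h => by rw [h] at h3; simp at h3⟩
    have h5 : |z.im| ≤ ∑ z ∈ hfin.toFinset, |z.im| :=
      Finset.single_le_sum (f := fun z : ℂ => |z.im|) (fun _ _ => abs_nonneg _) hz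
    have h6 := (le_max_right T₁ (∑ z ∈ hfin.toFinset, |z.im|)).trans_lt h4
    have h7 := le_abs_self z.im
    linarith
  obtain ⟨T, hT, hc⟩ := hinf.exists_subset_card_eq n
  exact ⟨T, hc, fun z hz => hT hz⟩

end

end Pool.Agent.H480.ML
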