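import Pool.Agent.H480.ML.D
import Pool.Agent.H480.ML.F

/-!
Local rank of `M(X x y)` and `L(X x y)` and the zeros of `ζ`: the two directions.
-/

open Complex MeasureTheory Filter Topology Set
open Pool.Agent.H295R2

set_option linter.unusedSectionVars false
set_option linter.unusedVariables false

namespace Pool.Agent.H480.ML

open Pool.Agent.H480.G Pool.Agent.H480.K
open H313.GK

noncomputable section

theorem order_eq {z : ℂ} (hz : z ≠ 1) : analyticOrderNatAt Zs z = analyticOrderNatAt riemannZeta z := by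
  have h1 : AnalyticAt ℂ riemannZeta z := by
    rw [Complex.analyticAt_iff_eventually_differentiableAt]
    filter_upwards [isOpen_ne.mem_nhds hz] with s hs using differentiableAt_riemannZeta hs
  have h2 : AnalyticAt ℂ (fun s : ℂ => s - 1) z := by fun_prop
  have h3 : analyticOrderAt (fun s : ℂ => s - 1) z = 0 := h2.analyticOrderAt_eq_zero.2 (sub_ne_zero.2 hz)
  have h4 : analyticOrderAt Zs z = analyticOrderAt (fun s : ℂ => (s - 1) * riemannZeta s) z := by
    refine analyticOrderAt_congr ?_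
    filter_upwards [isOpen_ne.mem_nhds hz] with s hs using (Zs_eq hs).symm
  have h5 : analyticOrderAt (fun s : ℂ => (s - 1) * riemannZeta s) z =
      analyticOrderAt (fun s : ℂ => s - 1) z + analyticOrderAt riemannZeta z := analyticOrderAt_mul h2 h1
  unfold analyticOrderNatAt
  rw [h4, h5, h3, zero_add]

theorem zero_ne_one {z : ℂ} (h : riemannZeta z = 0) : z ≠ 1 := by
  rintro rfl
  exact riemannZeta_one_ne_zero h

theorem Zs_zero_iff (z : ℂ) : Zs z = 0 ↔ riemannZeta z = 0 := by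
  constructor
  · intro h
    have hz : z ≠ 1 := by
      rintro rfl
      exact Zs_ne_zero_of_one_le (s := 1) (by simp) h
    rw [← Zs_eq hz] at h
    exact (mul_eq_zero.1 h).resolve_left (sub_ne_zero.2 hz)
  · intro h
    rw [← Zs_eq (zero_ne_one h), h, mul_zero]

/-- data of `μ` and `λ`: the polynomial `P` and the entire function `Q` with `F Z P = Q` -/
structure Dat (f : ℕ → ℂ) : Prop where
  le : ∀ n : ℕ, n ≠ 0 → ‖f n‖ ≤ (n : ℝ) ^ (0 : ℝ)
  down : ∃ P Q : ℂ → ℂ, Differentiable ℂ P ∧ Differentiable ℂ Q ∧ (∀ s : ℂ, 1 < s.re → LSeries f s * (Zs s * P s) = Q s) ∧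
    ∀ z : ℂ, riemannZeta z = 0 → 1 / 2 ≤ z.re → Q z ≠ 0
  up : ∃ E : ℂ → ℂ, (∀ s : ℂ, 1 / 2 < s.re → DifferentiableAt ℂ E s) ∧
    (∀ σ : ℝ, 1 / 2 < σ → ∃ K : ℝ, 0 ≤ K ∧ ∀ s : ℂ, σ ≤ s.re → ‖E s‖ ≤ K) ∧
    ∀ s : ℂ, 1 < s.re → LSeries f s * Zs s = (s - 1) * E s

theorem datM : Dat fM where
  le := fM_le
  down := ⟨fun _ => 1, fun s => s - 1, by fun_prop, by fun_prop, fun s hs => by rw [mul_one]; exact serM hs,
    fun z hz _ => sub_ne_zero.2 (zero_ne_one hz)⟩
  up := ⟨fun _ => 1, fun s _ => by fun_prop, fun σ _ => ⟨1, zero_le_one, fun s _ => by simp⟩,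
    fun s hs => by rw [mul_one]; exact serM hs⟩

theorem datL : Dat fL where
  le := fL_le
  down := by
    refine ⟨fun s => 2 * s - 1, fun s => (s - 1) * Zs (2 * s), by fun_prop, ?_, fun s hs => serL hs, fun z hz h => ?_⟩
    · exact (differentiable_id.sub_const 1).mul (Zs_differentiable.comp (by fun_prop))
    · refine mul_ne_zero (sub_ne_zero.2 (zero_ne_one hz)) (Zs_ne_zero_of_one_le ?_)
      simp
      linarith
  up := by
    refine ⟨fun s => riemannZeta (2 * s), fun s hs => ?_, fun σ hσ => ?_, fun s hs => ?_⟩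
    · have h1 : 2 * s ≠ 1 := by
        intro h
        have := congrArg Complex.re h
        simp at this
        linarith
      exact DifferentiableAt.comp s (g := riemannZeta) (f := fun s => 2 * s) (differentiableAt_riemannZeta h1) (by fun_prop)
    · obtain ⟨K, hK, h⟩ := zeta_bounds (a := 2 * σ) (by linarith)
      refine ⟨K, by linarith, fun s hs => (h (2 * s) ?_).1⟩
      simp
      linarith
    · have hs1 : s ≠ 1 := by
        rintro rfl
        simp at hs
      rw [← Zs_eq hs1]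
      show LSeries fL s * ((s - 1) * riemannZeta s) = (s - 1) * riemannZeta (2 * s)
      rw [← serL_zeta hs]
      ring

variable {f : ℕ → ℂ}

theorem down (hf : Dat f) {A A' : ℝ} (hA : 1 < A) (hA' : 1 < A') {r : ℕ} {δ : ℝ}
    (H : ∀ β : ℝ, δ < β → ∀ᶠ X : ℝ in atTop, Near (SM f) A A' r β X) (T : Finset ℂ)
    (hT : ∀ z ∈ T, riemannZeta z = 0 ∧ δ < z.re ∧ 1 / 2 ≤ z.re) : ∑ z ∈ T, analyticOrderNatAt riemannZeta z ≤ r := by
  obtain ⟨ρ, g, c₀, -, hg, hform⟩ := cont_of_rank le_rfl hf.le hA hA' H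
  obtain ⟨P, Q, hP, hQ, hrel, hne⟩ := hf.down
  have h1 : ∑ z ∈ T, analyticOrderNatAt riemannZeta z = ∑ z ∈ T, analyticOrderNatAt Zs z :=
    Finset.sum_congr rfl fun z hz => (order_eq (zero_ne_one (hT z hz).1)).symm
  rw [h1]
  exact count_of_cont (F := LSeries f) (c₀ := max c₀ 1) hg (fun s hs => hform s ((le_max_left _ _).trans_lt hs))
    Zs_differentiable hP hQ (fun s hs => hrel s ((le_max_right _ _).trans_lt hs)) T
    fun z hz => ⟨(hT z hz).2.1, hne z (hT z hz).1 (hT z hz).2.2⟩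

theorem up (hf : Dat f) {A A' : ℝ} (hA : 1 < A) (hA' : 1 < A') {r : ℕ} {δ : ℝ} (h0 : 1 / 2 ≤ δ)
    (H : ∀ T : Finset ℂ, (∀ z ∈ T, riemannZeta z = 0 ∧ δ < z.re) → ∑ z ∈ T, analyticOrderNatAt riemannZeta z ≤ r)
    {β : ℝ} (hβ : δ < β) : ∀ᶠ X : ℝ in atTop, Near (SM f) A A' r β X := by
  obtain ⟨E, h1, h2, h3⟩ := hf.up
  refine rank_of_zeros hf.le h0 (fun s hs => h1 s (by linarith)) (fun σ hσ => h2 σ (by linarith)) h3 (fun T hT => ?_) hA hA' hβ
  have h4 : ∀ z ∈ T, riemannZeta z = 0 := fun z hz => (Zs_zero_iff z).1 (hT z hz).1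
  have h5 : ∑ z ∈ T, analyticOrderNatAt Zs z = ∑ z ∈ T, analyticOrderNatAt riemannZeta z :=
    Finset.sum_congr rfl fun z hz => order_eq (zero_ne_one (h4 z hz))
  rw [h5]
  exact H T fun z hz => ⟨h4 z hz, (hT z hz).2⟩

/-- no finite rank below the exponent `1/2` -/
theorem never (hf : Dat f) {A A' : ℝ} (hA : 1 < A) (hA' : 1 < A') (r : ℕ) {β : ℝ} (hβ : β < 1 / 2) :
    ¬ ∀ᶠ X : ℝ in atTop, Near (SM f) A A' r β X := by
  intro H
  obtain ⟨T, hc, hT⟩ := many_zeros (r + 1)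
  have h1 := down hf hA hA' (r := r) (δ := β) (fun β' hβ' => by
    filter_upwards [H, eventually_ge_atTop 1] with X hX hX1
    obtain ⟨u, v, hu, hv, hle⟩ := hX
    exact ⟨u, v, hu, hv, hle.trans (Real.rpow_le_rpow_of_exponent_le hX1 hβ'.le)⟩) T
    (fun z hz => ⟨(hT z hz).1, by have := (hT z hz).2.1; linarith, (hT z hz).2.1⟩)
  have h2 : T.card ≤ ∑ z ∈ T, analyticOrderNatAt riemannZeta z := by
    rw [Finset.card_eq_sum_ones]
    refine Finset.sum_le_sum fun z hz => ?_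
    rw [← order_eq (hT z hz).2.2.2]
    exact order_pos ((Zs_zero_iff z).2 (hT z hz).1)
  omega

end

end Pool.Agent.H480.ML
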